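import Pool.Agent.H73.G.R8.H285R3.Str.Per
import Pool.Agent.H73.G.R8.W520.Half

/-!
Existence of the period lattice of the curve 14a1 by the intermediate value theorem.
-/

set_option autoImplicit false

open Set Filter Topology

namespace Pool.Agent.W646.MT

open Pool.Agent.H285R3.Str Pool.Agent.W520

/-- the second period -/
noncomputable def tau (t : ℝ) : ℂ := ⟨1 / 2, t⟩

theorem tau_eq (t : ℝ) : tau t = 1 / 2 + t * Complex.I := by
  apply Complex.ext <;> simp [tau]

/-- the rhombic lattice -/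
noncomputable def La (t : ℝ) (ht : t ≠ 0) : PeriodPair where
  ω₁ := 1
  ω₂ := tau t
  indep := by
    rw [LinearIndependent.pair_iff]
    intro a b h
    have h1 := congrArg Complex.im h
    have h2 := congrArg Complex.re h
    simp [tau] at h1 h2
    have hb : b = 0 := h1.resolve_right ht
    subst hb
    simp at h2
    exact ⟨h2, rfl⟩

section

variable {t : ℝ} {ht : t ≠ 0}

theorem mem_La {z : ℂ} : z ∈ (La t ht).lattice ↔ ∃ m n : ℤ, (m : ℂ) * 1 + n * tau t = z :=
  PeriodPair.mem_lattice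

theorem La_conj : ∀ l ∈ (La t ht).lattice, (starRingEnd ℂ) l ∈ (La t ht).lattice := by
  intro l hl
  obtain ⟨m, n, rfl⟩ := mem_La.1 hl
  have h3 : (starRingEnd ℂ) (tau t) = 1 - tau t := by
    apply Complex.ext
    · simp [tau]
      norm_num
    · simp [tau]
  refine mem_La.2 ⟨m + n, -n, ?_⟩
  rw [map_add, map_mul, map_mul, h3, map_one, map_intCast, map_intCast]
  push_cast
  ring

theorem La_real (n : ℕ) : (La t ht).G n = (((La t ht).G n).re : ℂ) :=
  real_of_conj (G_conj _ La_conj n)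

/-- parity of coordinates -/
theorem half_mem {a b : ℤ} (h : (a : ℂ) / 2 + b * tau t / 2 ∈ (La t ht).lattice) :
    2 ∣ a ∧ 2 ∣ b := by
  obtain ⟨m, n, h⟩ := mem_La.1 h
  have h1 := congrArg Complex.im h
  have h2 := congrArg Complex.re h
  simp [tau] at h1 h2
  have e1 : ((2 * n - b : ℤ) : ℝ) * t = 0 := by
    push_cast
    linarith
  have e2 : (2 * n - b : ℤ) = 0 := by
    have := (mul_eq_zero.1 e1).resolve_right ht
    exact_mod_cast this
  have hb : b = 2 * n := by omega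
  subst hb
  push_cast at h2
  have e3 : ((2 * m - a : ℤ) : ℝ) = 0 := by
    push_cast
    linarith
  have e4 : (2 * m - a : ℤ) = 0 := by exact_mod_cast e3
  exact ⟨⟨m, by omega⟩, ⟨n, rfl⟩⟩

theorem La_halves : Halves (La t ht) (1 / 2) (tau t / 2) := by
  refine ⟨mem_La.2 ⟨1, 0, by push_cast; ring⟩, mem_La.2 ⟨0, 1, by push_cast; ring⟩, ?_, ?_, ?_⟩
  · intro h
    have := (half_mem (a := 1) (b := 0) (by simpa using h)).1
    omega
  · intro h
    have := (half_mem (a := 0) (b := 1) (by simpa using h)).2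
    omega
  · intro h
    have := (half_mem (a := 1) (b := 1) (by simpa using h)).2
    omega

end

/-- the invariants do not both vanish -/
theorem not_both {L : PeriodPair} {h₁ h₂ : ℂ} (H : Halves L h₁ h₂) : ¬ (L.g₂ = 0 ∧ L.g₃ = 0) := by
  rintro ⟨h2, h3⟩
  have c1 := H.cubic1
  have c2 := H.symm.cubic1
  rw [h2, h3] at c1 c2
  have e1 : L.weierstrassP h₁ = 0 := by
    have : L.weierstrassP h₁ ^ 3 = 0 := by linear_combination (1 / 4 : ℂ) * c1
    exact pow_eq_zero_iff (by norm_num) |>.1 this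
  have e2 : L.weierstrassP h₂ = 0 := by
    have : L.weierstrassP h₂ ^ 3 = 0 := by linear_combination (1 / 4 : ℂ) * c2
    exact pow_eq_zero_iff (by norm_num) |>.1 this
  exact H.ne12 (by rw [e1, e2])

/-- scaling -/
theorem G_scale (L L' : PeriodPair) (c : ℂ) (hc : c ≠ 0)
    (h : ∀ z, z ∈ L.lattice ↔ c * z ∈ L'.lattice) (n : ℕ) : L'.G n = (c ^ n)⁻¹ * L.G n := by
  let E : L.lattice ≃ L'.lattice :=
    { toFun := fun l => ⟨c * l.1, (h _).1 l.2⟩
      invFun := fun l => ⟨c⁻¹ * l.1, (h _).2 (by rw [mul_inv_cancel_left₀ hc]; exact l.2)⟩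
      left_inv := fun l => Subtype.ext (by simp only; rw [inv_mul_cancel_left₀ hc])
      right_inv := fun l => Subtype.ext (by simp only; rw [mul_inv_cancel_left₀ hc]) }
  rw [PeriodPair.G, ← E.tsum_eq, PeriodPair.G, ← tsum_mul_left]
  refine tsum_congr fun l => ?_
  change ((c * l.1) ^ n)⁻¹ = _
  rw [mul_pow, mul_inv]

theorem G_eq (t : ℝ) (ht : t ≠ 0) (k : ℕ) : (La t ht).G k =
    ∑' p : ℤ × ℤ, (((p.1 : ℂ) + p.2 * tau t) ^ k)⁻¹ := by
  rw [PeriodPair.G, ← (La t ht).latticeEquivProd.symm.toEquiv.tsum_eq]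
  refine tsum_congr fun p => ?_
  have h := (La t ht).latticeEquiv_symm_apply p
  change ((((La t ht).latticeEquivProd.symm p).1) ^ k)⁻¹ = _
  rw [h]
  simp [La]

theorem G_summable (t : ℝ) (ht : t ≠ 0) (k : ℕ) (hk : 2 < k) :
    Summable (fun p : ℤ × ℤ => (((p.1 : ℂ) + p.2 * tau t) ^ k)⁻¹) := by
  have h := ((La t ht).hasSum_sumInvPow 0 hk).summable
  rw [← (La t ht).latticeEquivProd.symm.toEquiv.summable_iff] at h
  refine h.congr fun p => ?_
  have h1 := (La t ht).latticeEquiv_symm_apply p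
  change ((((La t ht).latticeEquivProd.symm p).1 - 0) ^ k)⁻¹ = _
  rw [h1]
  simp [La]

theorem sq_norm_pt (m n : ℤ) (t : ℝ) :
    ‖(m : ℂ) + n * tau t‖ ^ 2 = ((m : ℝ) + n / 2) ^ 2 + ((n : ℝ) * t) ^ 2 := by
  rw [← Complex.normSq_eq_norm_sq, Complex.normSq_apply]
  simp [tau]
  ring

theorem pt_ne {m n : ℤ} {t : ℝ} (ht : t ≠ 0) (h : (m, n) ≠ (0, 0)) :
    (m : ℂ) + n * tau t ≠ 0 := by
  intro h0
  have h1 := sq_norm_pt m n t
  rw [h0, norm_zero] at h1
  have h2 : ((m : ℝ) + n / 2) ^ 2 = 0 ∧ ((n : ℝ) * t) ^ 2 = 0 := by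
    constructor <;> nlinarith [sq_nonneg ((m : ℝ) + n / 2), sq_nonneg ((n : ℝ) * t)]
  have h3 : (n : ℝ) = 0 := by
    have := pow_eq_zero_iff (two_ne_zero) |>.1 h2.2
    exact (mul_eq_zero.1 this).resolve_right ht
  have h4 : (m : ℝ) = 0 := by
    have := pow_eq_zero_iff (two_ne_zero) |>.1 h2.1
    rw [h3] at this
    linarith
  apply h
  rw [Prod.mk.injEq]
  exact ⟨by exact_mod_cast h4, by exact_mod_cast h3⟩

/-- continuity -/
theorem G_cont (k : ℕ) (hk : 2 < k) : ContinuousOn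
    (fun t : ℝ => ∑' p : ℤ × ℤ, (((p.1 : ℂ) + p.2 * tau t) ^ k)⁻¹) (Icc (1 / 2) (√3 / 2)) := by
  have hh : (1 / 2 : ℝ) ≠ 0 := by norm_num
  refine continuousOn_tsum (u := fun p : ℤ × ℤ => ‖(((p.1 : ℂ) + p.2 * tau (1 / 2)) ^ k)⁻¹‖) ?_
    (G_summable (1 / 2) hh k hk).norm ?_
  · rintro ⟨m, n⟩
    by_cases h : (m, n) = (0, 0)
    · rw [Prod.mk.injEq] at h
      obtain ⟨rfl, rfl⟩ := h
      simpa using continuousOn_const
    · have hc : Continuous tau := by
        have : tau = fun t : ℝ => (1 / 2 : ℂ) + t * Complex.I := funext tau_eq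
        rw [this]
        fun_prop
      apply ContinuousOn.inv₀
      · fun_prop
      · intro t ht
        apply pow_ne_zero
        exact pt_ne (by have := ht.1; linarith) h
  · rintro ⟨m, n⟩ t ht
    by_cases h : (m, n) = (0, 0)
    · rw [Prod.mk.injEq] at h
      obtain ⟨rfl, rfl⟩ := h
      simp
    · rw [norm_inv, norm_inv, norm_pow, norm_pow]
      have h1 : 0 < ‖(m : ℂ) + n * tau (1 / 2)‖ := norm_pos_iff.2 (pt_ne hh h)
      apply inv_anti₀ (pow_pos h1 k)
      apply pow_le_pow_left₀ h1.le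
      apply le_of_sq_le_sq _ (norm_nonneg _)
      rw [sq_norm_pt, sq_norm_pt]
      have h2 : (1 / 2 : ℝ) ≤ t := ht.1
      have h3 : (1 / 2 : ℝ) ^ 2 ≤ t ^ 2 := by nlinarith
      have h4 : ((n : ℝ) * (1 / 2)) ^ 2 ≤ ((n : ℝ) * t) ^ 2 := by
        rw [mul_pow, mul_pow]
        exact mul_le_mul_of_nonneg_left h3 (sq_nonneg _)
      linarith

/-- the square lattice -/
noncomputable def Sq : PeriodPair where
  ω₁ := 1
  ω₂ := Complex.I
  indep := by
    rw [LinearIndependent.pair_iff]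
    intro a b h
    have h1 := congrArg Complex.im h
    have h2 := congrArg Complex.re h
    simp at h1 h2
    exact ⟨h2, h1⟩

theorem half_ne : (1 / 2 : ℝ) ≠ 0 := by norm_num

theorem tau_half : tau (1 / 2) = (1 + Complex.I) / 2 := by
  rw [tau_eq]
  push_cast
  ring

theorem G6_half : (La (1 / 2) half_ne).G 6 = 0 := by
  have h := G_mul (La (1 / 2) half_ne) Complex.I 4 Complex.I_pow_four (by norm_num) (by
    intro l hl
    obtain ⟨m, n, rfl⟩ := mem_La.1 hl
    refine mem_La.2 ⟨-m - n, 2 * m + n, ?_⟩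
    rw [tau_half]
    push_cast
    linear_combination (-(n : ℂ) / 2) * Complex.I_sq) 6
  have e : Complex.I ^ 6 = -1 := by
    calc Complex.I ^ 6 = (Complex.I ^ 2) ^ 3 := by ring
      _ = -1 := by rw [Complex.I_sq]; norm_num
  rw [e] at h
  linear_combination (-1 / 2 : ℂ) * h

theorem G4_half : ((La (1 / 2) half_ne).G 4).re < 0 := by
  have hc : tau (1 / 2) ≠ 0 := by
    intro h
    have := congrArg Complex.re h
    simp [tau] at this
  have h := G_scale Sq (La (1 / 2) half_ne) (tau (1 / 2)) hc (by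
    intro z
    rw [PeriodPair.mem_lattice, mem_La]
    constructor
    · rintro ⟨m, n, rfl⟩
      refine ⟨-n, m + n, ?_⟩
      simp only [Sq]
      rw [tau_half]
      push_cast
      linear_combination (-(n : ℂ) / 2) * Complex.I_sq
    · rintro ⟨m, n, h⟩
      refine ⟨m + n, -m, ?_⟩
      apply mul_left_cancel₀ hc
      rw [← h]
      simp only [Sq]
      rw [tau_half]
      push_cast
      linear_combination (-(m : ℂ) / 2) * Complex.I_sq) 4
  have e : tau (1 / 2) ^ 4 = -1 / 4 := by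
    rw [tau_half]
    calc ((1 + Complex.I) / 2) ^ 4 = ((1 + 2 * Complex.I + Complex.I ^ 2) / 4) ^ 2 := by ring
      _ = -1 / 4 := by
        rw [Complex.I_sq]
        linear_combination (1 / 4 : ℂ) * Complex.I_sq
  have h4 := G4_sq_pos Sq rfl rfl
  rw [h, e]
  have e2 : ((-1 / 4 : ℂ))⁻¹ * Sq.G 4 = ((-4 : ℝ) : ℂ) * Sq.G 4 := by
    push_cast
    norm_num
  rw [e2, Complex.re_ofReal_mul]
  linarith

theorem sqrt3_ne : √3 / 2 ≠ 0 := by positivity

theorem G4_hex : (La (√3 / 2) sqrt3_ne).G 4 = 0 := by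
  have h2 : (tau (√3 / 2)) ^ 2 = tau (√3 / 2) - 1 := tau_sq _ rfl
  have h3 : (tau (√3 / 2)) ^ 3 = -1 := by linear_combination (tau (√3 / 2) + 1) * h2
  have h6 : (tau (√3 / 2)) ^ 6 = 1 := by
    linear_combination ((tau (√3 / 2)) ^ 3 - 1) * h3
  have h := G_mul (La (√3 / 2) sqrt3_ne) (tau (√3 / 2)) 6 h6 (by norm_num)
    (mul_hex _ rfl rfl) 4
  have h5 : (tau (√3 / 2) + 1) * (La (√3 / 2) sqrt3_ne).G 4 = 0 := by
    linear_combination (tau (√3 / 2) * (La (√3 / 2) sqrt3_ne).G 4) * h3 - h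
  refine (mul_eq_zero.1 h5).resolve_left fun h7 => ?_
  have := congrArg Complex.re h7
  simp [tau] at this
  norm_num at this

/-- the invariants as real functions -/
noncomputable def g2f (t : ℝ) : ℝ := 60 * (∑' p : ℤ × ℤ, (((p.1 : ℂ) + p.2 * tau t) ^ 4)⁻¹).re

/-- the invariants as real functions -/
noncomputable def g3f (t : ℝ) : ℝ := 140 * (∑' p : ℤ × ℤ, (((p.1 : ℂ) + p.2 * tau t) ^ 6)⁻¹).re

theorem g2_eq (t : ℝ) (ht : t ≠ 0) : (La t ht).g₂ = (g2f t : ℂ) := by
  rw [PeriodPair.g₂, La_real 4, G_eq, g2f]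
  push_cast
  rfl

theorem g3_eq (t : ℝ) (ht : t ≠ 0) : (La t ht).g₃ = (g3f t : ℂ) := by
  rw [PeriodPair.g₃, La_real 6, G_eq, g3f]
  push_cast
  rfl

end Pool.Agent.W646.MT
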